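import Pool.Agent.H73.CTG.Stmts

/-! # Board CTG, row PSO: a point of `U` -/

set_option autoImplicit false

open Set Filter Topology

namespace Pool.CTG

theorem pso_log {s : ℝ} (h0 : 0 ≤ s) (h1 : s ≤ 1) : s / 2 ≤ Real.log (1 + s) := by
  have h2 : 1 - (1 + s)⁻¹ ≤ Real.log (1 + s) := Real.one_sub_inv_le_log_of_pos (by linarith)
  refine le_trans ?_ h2
  have h3 : (0 : ℝ) < 1 + s := by linarith
  rw [le_sub_iff_add_le, ← le_sub_iff_add_le', inv_le_iff_one_le_mul₀ h3]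
  nlinarith

theorem pso_norm {n : ℕ} (z v : E n) (hz : ‖z‖ = 1) (ho : (inner ℂ z v : ℂ) = 0) (t : ℝ) :
    ‖z + t • v‖ ^ 2 = 1 + t ^ 2 * ‖v‖ ^ 2 := by
  have h1 : t • v = (t : ℂ) • v := (Complex.coe_smul t v).symm
  rw [norm_add_sq (𝕜 := ℂ), hz, h1, inner_smul_right, ho, norm_smul, Complex.norm_real,
    mul_zero, map_zero, Real.norm_eq_abs, mul_pow, sq_abs]
  ring

theorem pso_line {n : ℕ} (G : E n → ℝ) (z v : E n) (hz : ‖z‖ = 1) (ho : (inner ℂ z v : ℂ) = 0)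
    (hv : v ≠ 0) (g2 : ContDiffOn ℝ 2 G {z | z ≠ 0})
    (hm : ∀ w : E n, w ≠ 0 → G z + 2 * Real.log ‖w‖ ≤ G w) :
    0 < fderiv ℝ (fun y => fderiv ℝ G y v) z v := by
  by_contra hneg
  rw [not_lt] at hneg
  have hop : IsOpen {z : E n | z ≠ 0} := isOpen_ne
  have hz0 : z ≠ 0 := by
    rintro rfl
    rw [norm_zero] at hz
    exact zero_ne_one hz
  have hvp : 0 < ‖v‖ := norm_pos_iff.2 hv
  have hne : ∀ t : ℝ, z + t • v ≠ 0 := by
    intro t h
    have := pso_norm z v hz ho t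
    rw [h, norm_zero] at this
    nlinarith [mul_nonneg (sq_nonneg t) (sq_nonneg ‖v‖)]
  have hcl : ∀ t : ℝ, HasDerivAt (fun t : ℝ => z + t • v) v t := by
    intro t
    have h1 : HasDerivAt (fun t : ℝ => t • v) ((1 : ℝ) • v) t := (hasDerivAt_id t).smul_const v
    rw [one_smul] at h1
    exact h1.const_add z
  have hG1 : ∀ t : ℝ, HasDerivAt (fun t : ℝ => G (z + t • v)) (fderiv ℝ G (z + t • v) v) t := by
    intro t
    have h1 : DifferentiableAt ℝ G (z + t • v) :=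
      (g2.contDiffAt (hop.mem_nhds (hne t))).differentiableAt (by norm_num)
    exact h1.hasFDerivAt.comp_hasDerivAt t (hcl t)
  have hA : DifferentiableAt ℝ (fun y => fderiv ℝ G y v) z := by
    have h1 : ContDiffAt ℝ 2 G z := g2.contDiffAt (hop.mem_nhds hz0)
    have h2 : ContDiffAt ℝ 1 (fderiv ℝ G) z := h1.fderiv_right (by norm_num)
    exact (h2.differentiableAt (by norm_num)).clm_apply (differentiableAt_const v)
  have hA2 : HasDerivAt (fun t : ℝ => fderiv ℝ G (z + t • v) v)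
      (fderiv ℝ (fun y => fderiv ℝ G y v) z v) 0 := by
    have h0 : z + (0 : ℝ) • v = z := by rw [zero_smul, add_zero]
    have h1 : HasFDerivAt (fun y => fderiv ℝ G y v) (fderiv ℝ (fun y => fderiv ℝ G y v) z)
        (z + (0 : ℝ) • v) := by
      rw [h0]
      exact hA.hasFDerivAt
    exact h1.comp_hasDerivAt 0 (hcl 0)
  have hψ : ∀ t : ℝ, HasDerivAt (fun t : ℝ => G (z + t • v) - ‖v‖ ^ 2 / 2 * t ^ 2)
      (fderiv ℝ G (z + t • v) v - ‖v‖ ^ 2 * t) t := by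
    intro t
    have h1 : HasDerivAt (fun t : ℝ => ‖v‖ ^ 2 / 2 * t ^ 2) (‖v‖ ^ 2 * t) t := by
      have h2 := (hasDerivAt_pow 2 t).const_mul (‖v‖ ^ 2 / 2)
      have e : ‖v‖ ^ 2 / 2 * (((2 : ℕ) : ℝ) * t ^ (2 - 1)) = ‖v‖ ^ 2 * t := by
        norm_num
        ring
      rw [e] at h2
      exact h2
    exact (hG1 t).sub h1
  have hd : deriv (fun t : ℝ => G (z + t • v) - ‖v‖ ^ 2 / 2 * t ^ 2) =
      fun t => fderiv ℝ G (z + t • v) v - ‖v‖ ^ 2 * t := funext fun t => (hψ t).deriv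
  have hdd : HasDerivAt (fun t : ℝ => fderiv ℝ G (z + t • v) v - ‖v‖ ^ 2 * t)
      (fderiv ℝ (fun y => fderiv ℝ G y v) z v - ‖v‖ ^ 2) 0 := by
    have h2 := (hasDerivAt_id (0 : ℝ)).const_mul (‖v‖ ^ 2)
    rw [mul_one] at h2
    exact hA2.sub h2
  have hmin : IsLocalMin (fun t : ℝ => G (z + t • v) - ‖v‖ ^ 2 / 2 * t ^ 2) 0 := by
    have h1 : ∀ᶠ t : ℝ in 𝓝 0, t ^ 2 * ‖v‖ ^ 2 < 1 := by
      have h2 : Tendsto (fun t : ℝ => t ^ 2 * ‖v‖ ^ 2) (𝓝 0) (𝓝 ((0 : ℝ) ^ 2 * ‖v‖ ^ 2)) := by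
        have : Continuous (fun t : ℝ => t ^ 2 * ‖v‖ ^ 2) := by fun_prop
        exact this.tendsto 0
      have h3 : ((0 : ℝ) ^ 2 * ‖v‖ ^ 2) < 1 := by norm_num
      exact h2.eventually (gt_mem_nhds h3)
    filter_upwards [h1] with t ht
    have h2 := hm (z + t • v) (hne t)
    have h3 : 2 * Real.log ‖z + t • v‖ = Real.log (1 + t ^ 2 * ‖v‖ ^ 2) := by
      rw [← pso_norm z v hz ho t, Real.log_pow]
      norm_num
    have h4 := pso_log (mul_nonneg (sq_nonneg t) (sq_nonneg ‖v‖)) ht.le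
    have h5 : G (z + (0 : ℝ) • v) = G z := by rw [zero_smul, add_zero]
    simp only [h5]
    rw [h3] at h2
    nlinarith
  have hd0 : deriv (fun t : ℝ => G (z + t • v) - ‖v‖ ^ 2 / 2 * t ^ 2) 0 = 0 := hmin.deriv_eq_zero
  have hd2 : deriv (deriv (fun t : ℝ => G (z + t • v) - ‖v‖ ^ 2 / 2 * t ^ 2)) 0 =
      fderiv ℝ (fun y => fderiv ℝ G y v) z v - ‖v‖ ^ 2 := by
    rw [hd]
    exact hdd.deriv
  have hlt : deriv (deriv (fun t : ℝ => G (z + t • v) - ‖v‖ ^ 2 / 2 * t ^ 2)) 0 < 0 := by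
    rw [hd2]
    nlinarith
  have hmax : IsLocalMax (fun t : ℝ => G (z + t • v) - ‖v‖ ^ 2 / 2 * t ^ 2) 0 :=
    isLocalMax_of_deriv_deriv_neg hlt hd0 (hψ 0).continuousAt
  have hconst : (fun t : ℝ => G (z + t • v) - ‖v‖ ^ 2 / 2 * t ^ 2) =ᶠ[𝓝 0]
      fun _ => (fun t : ℝ => G (z + t • v) - ‖v‖ ^ 2 / 2 * t ^ 2) 0 := by
    filter_upwards [hmin, hmax] with t h1 h2
    exact le_antisymm h2 h1
  have hc1 := hconst.deriv
  have hc2 := hc1.deriv_eq
  rw [hc2] at hlt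
  simp at hlt

/-- Row PSO. -/
theorem PSO_thm (hL : LVPStmt) : PSOStmt := by
  intro n f d G H
  have hn := H.hn
  haveI : NeZero n := ⟨by omega⟩
  haveI : Nontrivial (E n) := by
    refine ⟨⟨EuclideanSpace.single 0 (1 : ℂ), 0, ?_⟩⟩
    intro h
    have := congrArg (fun x : E n => ‖x‖) h
    simp at this
  have hop : IsOpen {z : E n | z ≠ 0} := isOpen_ne
  have hsph : (Metric.sphere (0 : E n) 1).Nonempty := by
    refine ⟨EuclideanSpace.single 0 (1 : ℂ), ?_⟩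
    rw [mem_sphere_zero_iff_norm]
    simp
  have hcs : ContinuousOn G (Metric.sphere (0 : E n) 1) := by
    refine H.g2.continuousOn.mono ?_
    intro z hz
    rw [mem_sphere_zero_iff_norm] at hz
    intro h
    rw [h, norm_zero] at hz
    exact zero_ne_one hz
  obtain ⟨z, hzs, hzm⟩ := (isCompact_sphere (0 : E n) 1).exists_isMinOn hsph hcs
  rw [mem_sphere_zero_iff_norm] at hzs
  have hz0 : z ≠ 0 := by
    rintro rfl
    rw [norm_zero] at hzs
    exact zero_ne_one hzs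
  have hm : ∀ w : E n, w ≠ 0 → G z + 2 * Real.log ‖w‖ ≤ G w := by
    intro w hw
    have hwp : 0 < ‖w‖ := norm_pos_iff.2 hw
    have hu : ‖((‖w‖ : ℂ)⁻¹) • w‖ = 1 := by
      rw [norm_smul, norm_inv, Complex.norm_real, norm_norm]
      exact inv_mul_cancel₀ hwp.ne'
    have hu0 : ((‖w‖ : ℂ)⁻¹) • w ≠ 0 := by
      intro h
      rw [h, norm_zero] at hu
      exact zero_ne_one hu
    have hwc : (‖w‖ : ℂ) ≠ 0 := by
      rw [Ne, Complex.ofReal_eq_zero]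
      exact hwp.ne'
    have h1 : G z ≤ G (((‖w‖ : ℂ)⁻¹) • w) :=
      hzm (by rw [mem_sphere_zero_iff_norm]; exact hu)
    have h2 := H.gh (‖w‖ : ℂ) (((‖w‖ : ℂ)⁻¹) • w) hwc hu0
    rw [smul_smul, mul_inv_cancel₀ hwc, one_smul, Complex.norm_real, norm_norm] at h2
    rw [h2]
    linarith
  refine ⟨z, hz0, fun v hv => ?_⟩
  have hzz : (inner ℂ z z : ℂ) = 1 := by
    rw [inner_self_eq_norm_sq_to_K, hzs]
    simp
  have hvo : (inner ℂ z (v - (inner ℂ z v : ℂ) • z) : ℂ) = 0 := by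
    rw [inner_sub_right, inner_smul_right, hzz, mul_one, sub_self]
  have hv0 : v - (inner ℂ z v : ℂ) • z ≠ 0 := by
    intro h
    exact hv ⟨_, sub_eq_zero.1 h⟩
  have h1 := pso_line G z (v - (inner ℂ z v : ℂ) • z) hzs hvo hv0 H.g2 hm
  have h2 := pso_line G z (Complex.I • (v - (inner ℂ z v : ℂ) • z)) hzs
    (by rw [inner_smul_right, hvo, mul_zero]) (smul_ne_zero Complex.I_ne_zero hv0) H.g2 hm
  have h3 := (hL n f d G H z (v - (inner ℂ z v : ℂ) • z) hz0).2 (inner ℂ z v : ℂ)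
  rw [sub_add_cancel] at h3
  rw [h3]
  exact add_pos h1 h2

end Pool.CTG
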